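import Mathlib
import Pool.Agent.H807R2.Dav1

/-!
# Project GJ, job BILMIN: bilinear sums over all characters, minor arcs (helper909)

The statement for the sum over all characters; the analytic part follows `typeII_lin` of
`Pool/Agent/H373R2/T7/Lin.lean`.
-/

set_option autoImplicit false

namespace Pool.Agent.Y909.GJ

open Finset
open Pool.Agent.H807R2.Dav

/-- orthogonality -/
lemma orth {q : ℕ} [NeZero q] (a b : ZMod q) :
    ‖∑ χ : DirichletCharacter ℂ q, χ a * (starRingEnd ℂ) (χ b)‖ ≤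
      if a = b then (q : ℝ) else 0 := by
  by_cases hb : IsUnit b
  · have h1 : ∀ χ : DirichletCharacter ℂ q, χ a * (starRingEnd ℂ) (χ b) = χ b⁻¹ * χ a := by
      intro χ
      have h2 : ‖χ b‖ = 1 := by
        have := DirichletCharacter.unit_norm_eq_one χ hb.unit
        simpa using this
      have h3 : χ b * χ b⁻¹ = 1 := by
        rw [← map_mul, ZMod.mul_inv_of_unit b hb, map_one]
      have h4 : (starRingEnd ℂ) (χ b) = χ b⁻¹ := by
        rw [← Complex.inv_eq_conj h2]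
        exact inv_eq_of_mul_eq_one_right h3
      rw [h4, mul_comm]
    rw [sum_congr rfl fun χ _ => h1 χ, DirichletCharacter.sum_char_inv_mul_char_eq ℂ hb a]
    by_cases h : b = a
    · rw [if_pos h, if_pos h.symm, Complex.norm_natCast]
      exact_mod_cast Nat.totient_le q
    · rw [if_neg h, if_neg (Ne.symm h), norm_zero]
  · have h1 : ∀ χ : DirichletCharacter ℂ q, χ b = 0 := fun χ => MulChar.map_nonunit χ hb
    have h2 : ∑ χ : DirichletCharacter ℂ q, χ a * (starRingEnd ℂ) (χ b) = 0 :=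
      sum_eq_zero fun χ _ => by rw [h1 χ, map_zero, mul_zero]
    rw [h2, norm_zero]
    split_ifs
    · exact Nat.cast_nonneg q
    · exact le_rfl

/-- Cauchy-Schwarz for complex sums -/
lemma csn {ι : Type*} (s : Finset ι) (a S : ι → ℂ) :
    ‖∑ m ∈ s, a m * S m‖ ^ 2 ≤ (∑ m ∈ s, ‖a m‖ ^ 2) * ∑ m ∈ s, ‖S m‖ ^ 2 := by
  have h1 : ‖∑ m ∈ s, a m * S m‖ ≤ ∑ m ∈ s, ‖a m‖ * ‖S m‖ :=
    (norm_sum_le _ _).trans (le_of_eq (sum_congr rfl fun m _ => norm_mul _ _))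
  calc ‖∑ m ∈ s, a m * S m‖ ^ 2 ≤ (∑ m ∈ s, ‖a m‖ * ‖S m‖) ^ 2 :=
        pow_le_pow_left₀ (norm_nonneg _) h1 2
    _ ≤ _ := sum_mul_sq_le_sq_mul_sq _ _ _

lemma ee_cj (x : ℝ) : (starRingEnd ℂ) (ee x) = ee (-x) := by
  rw [ee_eq, ee_eq, ← Complex.exp_conj]
  congr 1
  simp only [map_mul, Complex.conj_ofReal, Complex.conj_I]
  push_cast; ring

/-- the sum over one class -/
lemma class_sum {q r : ℕ} [NeZero q] (hr : 1 ≤ r) {h : ℤ} (hcop : IsCoprime h (r : ℤ)) {β : ℝ}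
    (hβ : |(q : ℝ) * β - h / r| ≤ 1 / (r : ℝ) ^ 2) (X M k : ℕ) (hk : 1 ≤ k) :
    ∑ k' ∈ Icc 1 X, (if (k : ZMod q) = (k' : ZMod q) then (q : ℝ) else 0) *
        KK M (((k : ℝ) - k') * β) ≤
      q * ((((X / q + 1 : ℕ) : ℝ) / r + 1) * (39 * M + 3 * r * (1 + Real.log r))) := by
  classical
  have hq : 0 < q := Nat.pos_of_ne_zero (NeZero.ne q)
  set c : ℕ := (k - 1) % q + 1 with hc
  have h1 : ∑ k' ∈ Icc 1 X, (if (k : ZMod q) = (k' : ZMod q) then (q : ℝ) else 0) *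
      KK M (((k : ℝ) - k') * β) =
      q * ∑ k' ∈ (Icc 1 X).filter (fun k' : ℕ => (k : ZMod q) = (k' : ZMod q)),
        KK M (((k : ℝ) - k') * β) := by
    rw [mul_sum, sum_filter]
    refine sum_congr rfl fun k' _ => ?_
    split_ifs <;> ring
  rw [h1]
  refine mul_le_mul_of_nonneg_left ?_ (Nat.cast_nonneg q)
  have h2 : (Icc 1 X).filter (fun k' : ℕ => (k : ZMod q) = (k' : ZMod q)) ⊆
      (range (X / q + 1)).image (fun j => c + j * q) := by
    intro k' hk'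
    rw [mem_filter, mem_Icc] at hk'
    obtain ⟨⟨h1k, hkX⟩, hkk⟩ := hk'
    rw [mem_image]
    refine ⟨(k' - 1) / q, ?_, ?_⟩
    · rw [mem_range]
      have := Nat.div_le_div_right (c := q) (show k' - 1 ≤ X by omega)
      omega
    · have h3 : k % q = k' % q := (ZMod.natCast_eq_natCast_iff' k k' q).1 hkk
      have h4 : (k - 1) % q = (k' - 1) % q := by
        have h5 : (k - 1) + 1 ≡ (k' - 1) + 1 [MOD q] := by
          rw [Nat.sub_add_cancel hk, Nat.sub_add_cancel h1k]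
          exact h3
        exact Nat.ModEq.add_right_cancel' 1 h5
      have h5 := Nat.mod_add_div (k' - 1) q
      have h6 : (k' - 1) / q * q = q * ((k' - 1) / q) := mul_comm _ _
      rw [hc, h4, h6]
      omega
  calc ∑ k' ∈ (Icc 1 X).filter (fun k' : ℕ => (k : ZMod q) = (k' : ZMod q)),
        KK M (((k : ℝ) - k') * β)
      ≤ ∑ k' ∈ (range (X / q + 1)).image (fun j => c + j * q), KK M (((k : ℝ) - k') * β) := by
        refine sum_le_sum_of_subset_of_nonneg h2 fun k' _ _ => KK_nonneg (Nat.cast_nonneg M) _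
    _ = ∑ j ∈ range (X / q + 1), KK M (((c : ℝ) - k) * β + j * ((q : ℝ) * β)) := by
        rw [sum_image (by
          intro x _ y _ hxy
          have h3 : x * q = y * q := by
            have : c + x * q = c + y * q := hxy
            omega
          exact Nat.eq_of_mul_eq_mul_right hq h3)]
        refine sum_congr rfl fun j _ => ?_
        rw [← KK_neg]
        congr 1
        push_cast
        ring
    _ ≤ _ := vino hr hcop hβ (Nat.cast_nonneg M) _ _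

/-- **Bilinear sums over all characters.** -/
theorem core (q N M r : ℕ) [NeZero q] (h : ℤ) (β : ℝ) (a b : ℕ → ℂ) (hM : 1 ≤ M)
    (hr : 1 ≤ r) (hcop : IsCoprime h (r : ℤ))
    (hβ : |(q : ℝ) * β - h / r| ≤ 1 / (r : ℝ) ^ 2) :
    ∑ χ : DirichletCharacter ℂ q, ‖∑ m ∈ Ioc M (2 * M), ∑ k ∈ Icc 1 (N / m),
      (a m * b k) * (χ ((m * k : ℕ) : ZMod q) * ee (((m * k : ℕ) : ℝ) * β))‖ ^ 2 ≤
    78 * (∑ m ∈ Ioc M (2 * M), ‖a m‖ ^ 2) * (∑ k ∈ Icc 1 (N / M), ‖b k‖ ^ 2) *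
      (q * (M + (N : ℝ) / (q * r) + (N : ℝ) / (q * M) + r) * (1 + Real.log r)) := by
  classical
  have hq : 0 < q := Nat.pos_of_ne_zero (NeZero.ne q)
  set X : ℕ := N / M with hX
  set S : DirichletCharacter ℂ q → ℕ → ℂ := fun χ m => ∑ k ∈ Icc 1 X,
    (b k * χ (k : ZMod q)) * (if m * k ≤ N then ee (((m * k : ℕ) : ℝ) * β) else 0) with hS
  -- Cauchy-Schwarz
  have hA : ∀ χ : DirichletCharacter ℂ q, ∑ m ∈ Ioc M (2 * M), ∑ k ∈ Icc 1 (N / m),
      (a m * b k) * (χ ((m * k : ℕ) : ZMod q) * ee (((m * k : ℕ) : ℝ) * β)) =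
      ∑ m ∈ Ioc M (2 * M), a m * (χ (m : ZMod q) * S χ m) := by
    intro χ
    refine sum_congr rfl fun m hm => ?_
    rw [mem_Ioc] at hm
    have hm0 : 0 < m := by omega
    have h1 : Icc 1 (N / m) = (Icc 1 X).filter (fun k => m * k ≤ N) := by
      ext k
      rw [mem_filter, mem_Icc, mem_Icc, Nat.le_div_iff_mul_le hm0, hX,
        Nat.le_div_iff_mul_le (by omega : 0 < M)]
      constructor
      · rintro ⟨h1, h2⟩
        refine ⟨⟨h1, ?_⟩, by rw [mul_comm]; exact h2⟩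
        exact (Nat.mul_le_mul_left k hm.1.le).trans h2
      · rintro ⟨⟨h1, _⟩, h3⟩
        exact ⟨h1, by rw [mul_comm]; exact h3⟩
    rw [h1, sum_filter, hS]
    simp only
    rw [mul_sum, mul_sum]
    refine sum_congr rfl fun k _ => ?_
    split_ifs
    · push_cast
      rw [map_mul]
      ring
    · ring
  have hB : ∀ χ : DirichletCharacter ℂ q, ‖∑ m ∈ Ioc M (2 * M), ∑ k ∈ Icc 1 (N / m),
      (a m * b k) * (χ ((m * k : ℕ) : ZMod q) * ee (((m * k : ℕ) : ℝ) * β))‖ ^ 2 ≤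
      (∑ m ∈ Ioc M (2 * M), ‖a m‖ ^ 2) * ∑ m ∈ Ioc M (2 * M), ‖S χ m‖ ^ 2 := by
    intro χ
    rw [hA χ]
    refine (csn _ _ _).trans (mul_le_mul_of_nonneg_left ?_ (by positivity))
    refine sum_le_sum fun m _ => ?_
    refine pow_le_pow_left₀ (norm_nonneg _) ?_ 2
    rw [norm_mul]
    calc ‖χ (m : ZMod q)‖ * ‖S χ m‖ ≤ 1 * ‖S χ m‖ :=
          mul_le_mul_of_nonneg_right (DirichletCharacter.norm_le_one χ _) (norm_nonneg _)
      _ = ‖S χ m‖ := one_mul _
  have hC : ∑ χ : DirichletCharacter ℂ q, ‖∑ m ∈ Ioc M (2 * M), ∑ k ∈ Icc 1 (N / m),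
      (a m * b k) * (χ ((m * k : ℕ) : ZMod q) * ee (((m * k : ℕ) : ℝ) * β))‖ ^ 2 ≤
      (∑ m ∈ Ioc M (2 * M), ‖a m‖ ^ 2) *
        ∑ χ : DirichletCharacter ℂ q, ∑ m ∈ Ioc M (2 * M), ‖S χ m‖ ^ 2 := by
    rw [mul_sum]
    exact sum_le_sum fun χ _ => hB χ
  -- expand the square
  have h1 : ((∑ χ : DirichletCharacter ℂ q, ∑ m ∈ Ioc M (2 * M), ‖S χ m‖ ^ 2 : ℝ) : ℂ) =
      ∑ k ∈ Icc 1 X, ∑ k' ∈ Icc 1 X, (b k * (starRingEnd ℂ) (b k')) *
        ((∑ χ : DirichletCharacter ℂ q, χ (k : ZMod q) * (starRingEnd ℂ) (χ (k' : ZMod q))) *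
        ∑ m ∈ (Ioc M (2 * M)).filter (fun m => m * k ≤ N ∧ m * k' ≤ N),
          ee ((m : ℝ) * (((k : ℝ) - k') * β))) := by
    push_cast
    have h2 : ∀ χ : DirichletCharacter ℂ q, ∀ m ∈ Ioc M (2 * M), ((‖S χ m‖ : ℂ)) ^ 2 =
        ∑ k ∈ Icc 1 X, ∑ k' ∈ Icc 1 X, (b k * (starRingEnd ℂ) (b k')) *
          ((χ (k : ZMod q) * (starRingEnd ℂ) (χ (k' : ZMod q))) *
          (if m * k ≤ N ∧ m * k' ≤ N then ee ((m : ℝ) * (((k : ℝ) - k') * β)) else 0)) := by
      intro χ m _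
      rw [← Complex.mul_conj', hS]
      simp only
      rw [map_sum, sum_mul_sum]
      refine sum_congr rfl fun k _ => sum_congr rfl fun k' _ => ?_
      rw [map_mul, map_mul]
      by_cases g1 : m * k ≤ N
      · by_cases g2 : m * k' ≤ N
        · rw [if_pos g1, if_pos g2, if_pos ⟨g1, g2⟩, ee_cj]
          have : ee ((m : ℝ) * (((k : ℝ) - k') * β)) =
              ee (((m * k : ℕ) : ℝ) * β) * ee (-(((m * k' : ℕ) : ℝ) * β)) := by
            rw [← ee_add]; congr 1; push_cast; ring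
          rw [this]; ring
        · rw [if_neg g2, if_neg (show ¬ (m * k ≤ N ∧ m * k' ≤ N) from fun h => g2 h.2)]
          simp
      · rw [if_neg g1, if_neg (show ¬ (m * k ≤ N ∧ m * k' ≤ N) from fun h => g1 h.1)]
        simp
    have h3 : ∀ χ : DirichletCharacter ℂ q, ∑ m ∈ Ioc M (2 * M), ((‖S χ m‖ : ℂ)) ^ 2 =
        ∑ k ∈ Icc 1 X, ∑ k' ∈ Icc 1 X, (b k * (starRingEnd ℂ) (b k')) *
          ((χ (k : ZMod q) * (starRingEnd ℂ) (χ (k' : ZMod q))) *
          ∑ m ∈ (Ioc M (2 * M)).filter (fun m => m * k ≤ N ∧ m * k' ≤ N),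
            ee ((m : ℝ) * (((k : ℝ) - k') * β))) := by
      intro χ
      rw [sum_congr rfl (h2 χ), sum_comm]
      refine sum_congr rfl fun k _ => ?_
      rw [sum_comm]
      refine sum_congr rfl fun k' _ => ?_
      rw [← mul_sum, ← mul_sum, sum_filter]
    rw [sum_congr rfl fun χ _ => h3 χ, sum_comm]
    refine sum_congr rfl fun k _ => ?_
    rw [sum_comm]
    refine sum_congr rfl fun k' _ => ?_
    rw [← mul_sum, sum_mul]
  have hK : ∀ k ∈ Icc 1 X, ∀ k' ∈ Icc 1 X,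
      ‖∑ m ∈ (Ioc M (2 * M)).filter (fun m => m * k ≤ N ∧ m * k' ≤ N),
          ee ((m : ℝ) * (((k : ℝ) - k') * β))‖ ≤ KK M (((k : ℝ) - k') * β) := by
    intro k hk k' hk'
    rw [mem_Icc] at hk hk'
    have hk0 : 0 < k := by omega
    have hk0' : 0 < k' := by omega
    set hi := min (2 * M) (min (N / k) (N / k')) with hhi
    have hset : (Ioc M (2 * M)).filter (fun m => m * k ≤ N ∧ m * k' ≤ N) =
        Ico (M + 1) (hi + 1) := by
      ext m
      rw [mem_filter, mem_Ioc, mem_Ico]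
      have g2 : m * k ≤ N ↔ m ≤ N / k := (Nat.le_div_iff_mul_le hk0).symm
      have g4 : m * k' ≤ N ↔ m ≤ N / k' := (Nat.le_div_iff_mul_le hk0').symm
      rw [g2, g4]
      omega
    rw [hset]
    rcases le_or_gt (M + 1) (hi + 1) with h | h
    · apply geo_bound _ _ h
      have g2 : hi ≤ 2 * M := min_le_left _ _
      have g2r : (hi : ℝ) ≤ 2 * M := by exact_mod_cast g2
      push_cast
      linarith
    · rw [Ico_eq_empty_of_le h.le, sum_empty, norm_zero]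
      exact KK_nonneg (Nat.cast_nonneg _) _
  set G : ℕ → ℕ → ℝ := fun k k' => (if (k : ZMod q) = (k' : ZMod q) then (q : ℝ) else 0) *
    KK M (((k : ℝ) - k') * β) with hG
  have hGs : ∀ k k', G k k' = G k' k := by
    intro k k'
    simp only [hG]
    rw [← KK_neg]
    congr 1
    · by_cases h : (k : ZMod q) = (k' : ZMod q)
      · rw [if_pos h, if_pos h.symm]
      · rw [if_neg h, if_neg (Ne.symm h)]
    · congr 1; ring
  have hG0 : ∀ k k', 0 ≤ G k k' := by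
    intro k k'
    simp only [hG]
    refine mul_nonneg ?_ (KK_nonneg (Nat.cast_nonneg _) _)
    split_ifs
    · exact Nat.cast_nonneg q
    · exact le_rfl
  have h2 : ∑ χ : DirichletCharacter ℂ q, ∑ m ∈ Ioc M (2 * M), ‖S χ m‖ ^ 2 ≤
      ∑ k ∈ Icc 1 X, ∑ k' ∈ Icc 1 X, (‖b k‖ ^ 2 + ‖b k'‖ ^ 2) / 2 * G k k' := by
    have h3 : (∑ χ : DirichletCharacter ℂ q, ∑ m ∈ Ioc M (2 * M), ‖S χ m‖ ^ 2) =
        ‖((∑ χ : DirichletCharacter ℂ q, ∑ m ∈ Ioc M (2 * M), ‖S χ m‖ ^ 2 : ℝ) : ℂ)‖ := by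
      rw [Complex.norm_real, Real.norm_of_nonneg (by positivity)]
    rw [h3, h1]
    refine (norm_sum_le _ _).trans (sum_le_sum fun k hk => ?_)
    refine (norm_sum_le _ _).trans (sum_le_sum fun k' hk' => ?_)
    rw [norm_mul, norm_mul, norm_mul, RCLike.norm_conj]
    refine mul_le_mul ?_ ?_ (by positivity) (by positivity)
    · nlinarith [sq_nonneg (‖b k‖ - ‖b k'‖)]
    · simp only [hG]
      refine mul_le_mul (orth _ _) (hK k hk k' hk') (norm_nonneg _) ?_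
      split_ifs
      · exact Nat.cast_nonneg q
      · exact le_rfl
  have h4 : ∑ k ∈ Icc 1 X, ∑ k' ∈ Icc 1 X, (‖b k‖ ^ 2 + ‖b k'‖ ^ 2) / 2 * G k k' =
      ∑ k ∈ Icc 1 X, ‖b k‖ ^ 2 * ∑ k' ∈ Icc 1 X, G k k' := by
    have e2 : ∀ k k' : ℕ, (‖b k‖ ^ 2 + ‖b k'‖ ^ 2) / 2 * G k k' =
        1 / 2 * (‖b k‖ ^ 2 * G k k') + 1 / 2 * (‖b k'‖ ^ 2 * G k k') := by
      intro k k'; ring
    simp_rw [e2, sum_add_distrib]
    have e3 : ∑ k ∈ Icc 1 X, ∑ k' ∈ Icc 1 X, 1 / 2 * (‖b k'‖ ^ 2 * G k k') =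
        ∑ k ∈ Icc 1 X, ∑ k' ∈ Icc 1 X, 1 / 2 * (‖b k‖ ^ 2 * G k k') := by
      rw [sum_comm]
      refine sum_congr rfl fun k _ => sum_congr rfl fun k' _ => ?_
      rw [hGs]
    rw [e3, ← sum_add_distrib]
    refine sum_congr rfl fun k _ => ?_
    rw [← sum_add_distrib, mul_sum]
    refine sum_congr rfl fun k' _ => ?_
    ring
  -- the constant
  have hr0 : (1 : ℝ) ≤ r := by exact_mod_cast hr
  have hM0 : (1 : ℝ) ≤ M := by exact_mod_cast hM
  have hq0 : (1 : ℝ) ≤ q := by exact_mod_cast hq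
  have hl : 0 ≤ Real.log r := Real.log_nonneg hr0
  have h5 : ∀ k ∈ Icc 1 X, ∑ k' ∈ Icc 1 X, G k k' ≤
      78 * (q * (M + (N : ℝ) / (q * r) + (N : ℝ) / (q * M) + r) * (1 + Real.log r)) := by
    intro k hk
    rw [mem_Icc] at hk
    refine (class_sum hr hcop hβ X M k hk.1).trans ?_
    have g1 : ((X / q + 1 : ℕ) : ℝ) ≤ (N : ℝ) / (M * q) + 1 := by
      push_cast
      have g2 : ((X / q : ℕ) : ℝ) ≤ (X : ℝ) / q := Nat.cast_div_le
      have g3 : (X : ℝ) ≤ (N : ℝ) / M := by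
        rw [hX]
        exact Nat.cast_div_le
      have g4 : (X : ℝ) / q ≤ (N : ℝ) / M / q := by gcongr
      rw [div_div] at g4
      linarith
    have g2 : ((X / q + 1 : ℕ) : ℝ) / r + 1 ≤ (N : ℝ) / (M * q * r) + 2 := by
      have g3 : ((X / q + 1 : ℕ) : ℝ) / r ≤ ((N : ℝ) / (M * q) + 1) / r := by gcongr
      have g4 : ((N : ℝ) / (M * q) + 1) / r = (N : ℝ) / (M * q * r) + 1 / r := by
        rw [add_div, div_div]
      have g5 : 1 / (r : ℝ) ≤ 1 := by
        rw [div_le_one (by linarith)]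
        exact hr0
      linarith
    have g3 : 39 * (M : ℝ) + 3 * r * (1 + Real.log r) ≤ 39 * (1 + Real.log r) * (M + r) := by
      have : 0 ≤ Real.log r * M := by positivity
      have : 0 ≤ r * (1 + Real.log r) := by positivity
      nlinarith
    have g4 : (((X / q + 1 : ℕ) : ℝ) / r + 1) * (39 * M + 3 * r * (1 + Real.log r)) ≤
        ((N : ℝ) / (M * q * r) + 2) * (39 * (1 + Real.log r) * (M + r)) := by
      refine mul_le_mul g2 g3 (by positivity) (by positivity)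
    have g5 : ((N : ℝ) / (M * q * r) + 2) * (39 * (1 + Real.log r) * (M + r)) =
        39 * (1 + Real.log r) * ((N : ℝ) / (q * r) + (N : ℝ) / (q * M) + 2 * M + 2 * r) := by
      field_simp
      ring
    have g6 : 39 * (1 + Real.log r) * ((N : ℝ) / (q * r) + (N : ℝ) / (q * M) + 2 * M + 2 * r) ≤
        78 * ((M + (N : ℝ) / (q * r) + (N : ℝ) / (q * M) + r) * (1 + Real.log r)) := by
      have g7 : 0 ≤ (1 + Real.log r) * ((N : ℝ) / (q * r) + (N : ℝ) / (q * M)) := by positivity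
      nlinarith
    calc (q : ℝ) * ((((X / q + 1 : ℕ) : ℝ) / r + 1) * (39 * M + 3 * r * (1 + Real.log r)))
        ≤ q * (78 * ((M + (N : ℝ) / (q * r) + (N : ℝ) / (q * M) + r) * (1 + Real.log r))) := by
          refine mul_le_mul_of_nonneg_left ?_ (by linarith)
          linarith
      _ = _ := by ring
  have h6 : ∑ χ : DirichletCharacter ℂ q, ∑ m ∈ Ioc M (2 * M), ‖S χ m‖ ^ 2 ≤
      (∑ k ∈ Icc 1 X, ‖b k‖ ^ 2) *
        (78 * (q * (M + (N : ℝ) / (q * r) + (N : ℝ) / (q * M) + r) * (1 + Real.log r))) := by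
    refine (h2.trans (le_of_eq h4)).trans ?_
    rw [sum_mul]
    refine sum_le_sum fun k hk => ?_
    exact mul_le_mul_of_nonneg_left (h5 k hk) (by positivity)
  refine hC.trans ((mul_le_mul_of_nonneg_left h6 (by positivity)).trans (le_of_eq ?_))
  ring

end Pool.Agent.Y909.GJ
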