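import Pool.Agent.Y883.GJ.Stm
import Pool.Agent.Y909.GJ.BilMin0

/-!
# Project GJ, job BILMIN (helper909)
-/

set_option autoImplicit false

namespace Pool.Agent.Y909.GJ

open Finset
open Pool.Agent.H807R2.Dav (ee)
open Pool.Agent.Y883.GJ

theorem bilMin : BilMinStm := by
  refine ⟨78, ?_⟩
  intro q N M r _ h β a b hM hMN hr hcop hβ
  have h1 := core q N M r h β a b hM hr hcop hβ
  refine le_trans (le_of_eq ?_) h1
  rw [EuclideanSpace.norm_sq_eq]
  refine sum_congr rfl fun χ _ => ?_
  congr 2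
  rw [WithLp.ofLp_sum, Finset.sum_apply]
  refine sum_congr rfl fun m _ => ?_
  rw [WithLp.ofLp_sum, Finset.sum_apply]
  refine sum_congr rfl fun k _ => ?_
  simp [ev]

end Pool.Agent.Y909.GJ
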